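import Mathlib

/-! # MP_b1d8d5_co: a (3,2,1)-conjugate-orthogonal idempotent Latin square of order 12. -/

namespace Pool.Agent.Results.MP_b1d8d5_co.CoilsTwelve

/-- `op` is a quasigroup operation. -/
def IsQuasigroup {S : Type} (op : S → S → S) : Prop :=
  (∀ a b, ∃! x, op a x = b) ∧ (∀ a b, ∃! x, op x a = b)

/-- `star` is the (3,2,1)-conjugate of `op`: `star z y = x` if and only if `op x y = z`. -/
def IsConj321 {S : Type} (op star : S → S → S) : Prop :=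
  ∀ x y z, star z y = x ↔ op x y = z

/-- Orthogonality of two operations. -/
def Orthogonal {S : Type} (op star : S → S → S) : Prop :=
  ¬ ∃ a b c d, a ≠ b ∧ c ≠ d ∧ op a c = op b d ∧ star a c = star b d

/-- the quasigroup of order 12 -/
def op : Fin 12 → Fin 12 → Fin 12 :=
  ![![0, 8, 10, 7, 1, 4, 3, 9, 6, 2, 11, 5],
    ![5, 1, 9, 11, 8, 2, 0, 4, 10, 7, 3, 6],
    ![3, 0, 2, 10, 6, 9, 7, 1, 5, 11, 8, 4],
    ![10, 4, 1, 3, 11, 7, 5, 8, 2, 0, 6, 9],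
    ![8, 11, 5, 2, 4, 6, 10, 0, 9, 3, 1, 7],
    ![7, 9, 6, 0, 3, 5, 8, 11, 1, 10, 4, 2],
    ![9, 3, 0, 8, 5, 11, 6, 2, 4, 1, 7, 10],
    ![6, 10, 4, 1, 9, 0, 11, 7, 3, 5, 2, 8],
    ![1, 7, 11, 5, 2, 10, 9, 6, 8, 4, 0, 3],
    ![11, 2, 8, 6, 0, 3, 4, 10, 7, 9, 5, 1],
    ![4, 6, 3, 9, 7, 1, 2, 5, 11, 8, 10, 0],
    ![2, 5, 7, 4, 10, 8, 1, 3, 0, 6, 9, 11]]

/-- its (3,2,1)-conjugate -/
def star : Fin 12 → Fin 12 → Fin 12 :=
  ![![0, 2, 6, 5, 9, 7, 1, 4, 11, 3, 8, 10],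
    ![8, 1, 3, 7, 0, 10, 11, 2, 5, 6, 4, 9],
    ![11, 9, 2, 4, 8, 1, 10, 6, 3, 0, 7, 5],
    ![2, 6, 10, 3, 5, 9, 0, 11, 7, 4, 1, 8],
    ![10, 3, 7, 11, 4, 0, 9, 1, 6, 8, 5, 2],
    ![1, 11, 4, 8, 6, 5, 3, 10, 2, 7, 9, 0],
    ![7, 10, 5, 9, 2, 4, 6, 8, 0, 11, 3, 1],
    ![5, 8, 11, 0, 10, 3, 2, 7, 9, 1, 6, 4],
    ![4, 0, 9, 6, 1, 11, 5, 3, 8, 10, 2, 7],
    ![6, 5, 1, 10, 7, 2, 8, 0, 4, 9, 11, 3],
    ![3, 7, 0, 2, 11, 8, 4, 9, 1, 5, 10, 6],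
    ![9, 4, 8, 1, 3, 6, 7, 5, 10, 2, 0, 11]]

theorem row_bij : ∀ a, Function.Injective (op a) := by decide +kernel

theorem col_bij : ∀ a, Function.Injective (fun x => op x a) := by decide +kernel

theorem conj_spec : ∀ x y z, star z y = x ↔ op x y = z := by decide +kernel

theorem pair_inj : Function.Injective (fun p : Fin 12 × Fin 12 => (op p.1 p.2, star p.1 p.2)) := by
  decide +kernel

/-- There is an idempotent quasigroup of order 12 orthogonal to its (3,2,1)-conjugate. -/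
theorem result : ∃ op star : Fin 12 → Fin 12 → Fin 12,
    IsQuasigroup op ∧ (∀ x, op x x = x) ∧ IsConj321 op star ∧ Orthogonal op star := by
  refine ⟨op, star, ⟨fun a b => ?_, fun a b => ?_⟩, by decide +kernel, conj_spec, ?_⟩
  · exact (Finite.injective_iff_bijective.1 (row_bij a)).existsUnique b
  · exact (Finite.injective_iff_bijective.1 (col_bij a)).existsUnique b
  · rintro ⟨a, b, c, d, hab, _, h1, h2⟩
    have := @pair_inj (a, c) (b, d) (Prod.ext h1 h2)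
    exact hab (congrArg Prod.fst this)

end Pool.Agent.Results.MP_b1d8d5_co.CoilsTwelve
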